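import Pool.Agent.Helper17.VCS.Nb

/-!
Q1 for sets of bounded Vapnik–Chervonenkis dimension.
-/

open Finset

namespace Pool.Agent.Results.MP_47c51c_nt.BoundedVC

open Pool.Agent.Helper10.GcdSun Pool.Agent.Helper17.VCS

/-- no `r` elements of `A` form a gcd-sunflower -/
def Free (r : ℕ) (A : Finset ℕ) : Prop :=
  ¬ ∃ S : Finset ℕ, S ⊆ A ∧ S.card = r ∧ GcdSunflower S

theorem result (r d : ℕ) (hr : 1 ≤ r) (hd : 1 ≤ d) :
    (∀ A : Finset ℕ, VCle d A → FewTraces d A) ∧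
    (∀ (k : ℕ) (A : Finset ℕ), (∀ a ∈ A, 0 < a ∧ a.primeFactorsList.length ≤ k) →
      FewTraces d A → Free r A → (A.card : ℝ) ≤ (960 * (d : ℝ) * r) ^ k) ∧
    (∀ (m : ℕ) (w : ℕ → ℕ → ℝ), (∀ p e, 0 ≤ w p e) →
      (∀ p n, ∑ e ∈ range n, w p (e + 1) ≤ 1) → ∀ A : Finset ℕ,
      (∀ a ∈ A, 0 < a ∧ a.primeFactors.card ≤ m) → FewTraces d A → Free r A →
      ∑ a ∈ A, ∏ p ∈ a.primeFactors, w p (a.factorization p) ≤ (480 * (d : ℝ) * r) ^ m) ∧
    ∃ N₀ : ℕ, ∀ N : ℕ, N₀ ≤ N → ∀ A : Finset ℕ, A ⊆ Icc 1 N → FewTraces d A → Free r A →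
      (A.card : ℝ) ≤
        (N : ℝ) ^ ((3 + 3 * Real.log (960 * (d : ℝ) * r)) / Real.log (Real.log N)) := by
  refine ⟨fun A => fewTraces_of_VCle, fun k A hA htr hfree => ?_,
    fun m w hw hw1 A hA htr hfree => weighted hd hr (fun a ha => (hA a ha).1)
      (fun a ha => (hA a ha).2) htr hfree w hw hw1, bound_N hd hr⟩
  have h := bound_k (k := k) (m := k) hd hr (fun a ha => (hA a ha).1)
    (fun a ha => (hA a ha).2)
    (fun a ha => (List.toFinset_card_le _).trans (hA a ha).2) htr hfree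
  refine h.trans (le_of_eq ?_)
  rw [← mul_pow]
  congr 1
  ring

end Pool.Agent.Results.MP_47c51c_nt.BoundedVC
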