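import Pool.Agent.Helper55.Orb.Int
import Pool.Agent.Helper55.Orb.AbMain

/-!
Sets of positive integers without gcd-sunflowers which are orbits of groups of permutations of the
primes, or unions of few such orbits.
-/

open Finset

namespace Pool.Agent.Results.MP_47c51c_nt.GroupOrbits

open Pool.Agent.Helper55.Orb

theorem no_sun {r : ℕ} {A : Finset ℕ} (hA : Free r A) {Γ : Subgroup (Equiv.Perm Nat.Primes)} {a : ℕ}
    (h : ∀ σ ∈ Γ, act σ a ∈ A) (g : Fin r → Γ) : ¬ SunAct (supp a) g := by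
  intro hg
  obtain ⟨S, hS, hcard, hsun⟩ := gcdSunflower_of_sunAct hg
  refine hA ⟨S, ?_, hcard, hsun⟩
  intro b hb
  obtain ⟨i, rfl⟩ := hS b hb
  exact h _ (g i).2

theorem dvd_tame {r y : ℕ} (hr : 2 ≤ r) (hy : r ≤ y + 1) {A : Finset ℕ} (hA : Free r A)
    {Γ : Subgroup (Equiv.Perm Nat.Primes)} [Finite Γ] {a : ℕ} (ha : 0 < a)
    (h : ∀ σ ∈ Γ, act σ a ∈ A) (ht : Tame y Γ a) :
    (orbit Γ a).ncard ∣ cst r y ^ a.primeFactors.card := by
  rw [ncard_orbit ha, ← card_supp]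
  refine (index_dvd_of_fixer_le (fixer_le_stab ha)).trans
    (index_dvd_cst hr hy (supp a) (no_sun hA h) ?_)
  rintro q hq hyq g ⟨m, hm⟩ x hx hgx
  refine ht q hq hyq g g.2 ⟨m, ?_⟩ x hx hgx
  have h1 := congrArg (fun z : Γ => (z : Equiv.Perm Nat.Primes)) hm
  simpa using h1

theorem tame_of_card {y : ℕ} {Γ : Subgroup (Equiv.Perm Nat.Primes)} [Finite Γ] (a : ℕ)
    (h : ∀ q : ℕ, q.Prime → q ∣ Nat.card Γ → q ≤ y) : Tame y Γ a := by
  rintro q hq hyq σ hσ ⟨m, hm⟩ p _ _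
  have h1 : Nat.Coprime (q ^ m) (Nat.card Γ) := by
    apply Nat.Coprime.pow_left
    rw [Nat.Prime.coprime_iff_not_dvd hq]
    intro h2
    have := h q hq h2
    omega
  have h2 : (⟨σ, hσ⟩ : Γ) ^ q ^ m = 1 := by
    apply Subtype.ext
    simpa using hm
  have h3 : orderOf (⟨σ, hσ⟩ : Γ) ∣ Nat.gcd (q ^ m) (Nat.card Γ) :=
    Nat.dvd_gcd (orderOf_dvd_of_pow_eq_one h2) (orderOf_dvd_natCard _)
  rw [h1.gcd_eq_one, Nat.dvd_one, orderOf_eq_one_iff] at h3
  have h4 : σ = 1 := congrArg (fun z : Γ => (z : Equiv.Perm Nat.Primes)) h3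
  rw [h4]
  rfl

theorem le_abel {r y : ℕ} (hr : 2 ≤ r) (hy : r ≤ y + 1) {A : Finset ℕ} (hA : Free r A)
    {Γ : Subgroup (Equiv.Perm Nat.Primes)} [Finite Γ] {a : ℕ} (ha : 0 < a)
    (h : ∀ σ ∈ Γ, act σ a ∈ A) (ht : Abel y Γ) :
    (orbit Γ a).ncard ≤ (4 * r * cst r y) ^ a.primeFactors.card := by
  obtain ⟨H, hH, hq⟩ := ht
  rw [ncard_orbit ha, ← card_supp]
  have h1 := index_dvd_of_fixer_le (fixer_le_stab (Γ := Γ) ha)
  have h2 : (fixer Γ (supp a)).index ≠ 0 := Subgroup.FiniteIndex.index_ne_zero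
  exact (Nat.le_of_dvd (Nat.pos_of_ne_zero h2) h1).trans
    (index_le_of_abelian_subgroup hr hy H hH hq (supp a) (no_sun hA h))

theorem factorization_orbit_le {Γ : Subgroup (Equiv.Perm Nat.Primes)} [Finite Γ] {a : ℕ}
    (ha : 0 < a) (q : ℕ) :
    (orbit Γ a).ncard.factorization q ≤ (fixer Γ (supp a)).index.factorization q := by
  rw [ncard_orbit ha]
  exact (Nat.factorization_le_iff_dvd Subgroup.FiniteIndex.index_ne_zero
    Subgroup.FiniteIndex.index_ne_zero).2 (index_dvd_of_fixer_le (fixer_le_stab ha)) q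

theorem result (r : ℕ) (hr : 2 ≤ r) (A : Finset ℕ) (hA : Free r A)
    (Γ : Subgroup (Equiv.Perm Nat.Primes)) [Finite Γ] :
    (∀ a : ℕ, 0 < a → (∀ σ ∈ Γ, act σ a ∈ A) →
      (∀ (q : ℕ) (_ : q.Prime) (P : Sylow q Γ),
        (q < r → (orbit Γ a).ncard.factorization q ≤
          Nat.clog q r * (a.primeFactors.card - fixd (P : Subgroup Γ) (supp a)) +
            (Nat.clog q r + 1) * (a.primeFactors.card - orbs (P : Subgroup Γ) (supp a))) ∧
        (r ≤ q → (orbit Γ a).ncard.factorization q ≤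
          2 * (a.primeFactors.card - orbs (P : Subgroup Γ) (supp a))) ∧
        (r ≤ q → Comm (P : Subgroup Γ) → q ^ (orbit Γ a).ncard.factorization q ≤
          (4 * r) ^ (a.primeFactors.card - orbs (P : Subgroup Γ) (supp a)))) ∧
      ((∀ σ ∈ Γ, ∀ p ∈ supp a, σ p ∈ supp a → σ p = p) →
        (orbit Γ a).ncard ∣ cpt r ^ a.primeFactors.card) ∧
      ∀ y : ℕ, r ≤ y + 1 →
        ((Tame y Γ a ∨ ∀ q : ℕ, q.Prime → q ∣ Nat.card Γ → q ≤ y) →
          (orbit Γ a).ncard ∣ cst r y ^ a.primeFactors.card) ∧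
        (Abel y Γ → (orbit Γ a).ncard ≤ (4 * r * cst r y) ^ a.primeFactors.card)) ∧
    ∀ y k : ℕ, r ≤ y + 1 →
      (∀ a ∈ A, 0 < a ∧ a.primeFactors.card ≤ k ∧ (∀ σ ∈ Γ, act σ a ∈ A) ∧
        (Tame y Γ a ∨ Abel y Γ)) →
      A.card ≤ (orbit Γ '' (A : Set ℕ)).ncard * (4 * r * cst r y) ^ k := by
  classical
  refine ⟨fun a ha h => ⟨fun q hq P => ⟨fun hqr => ?_, fun hqr => ?_, fun hqr hc => ?_⟩,
    fun hp => ?_, fun y hy => ⟨fun ht => ?_, fun ht => le_abel hr hy hA ha h ht⟩⟩,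
    fun y k hy hk => ?_⟩
  · have h3 := (factorization_orbit_le ha q).trans
      (factorization_index_le hq (supp a) (no_sun hA h) P)
    unfold expo at h3
    rw [card_supp, if_pos hqr] at h3
    exact h3
  · have h3 := (factorization_orbit_le ha q).trans
      (factorization_index_le hq (supp a) (no_sun hA h) P)
    unfold expo at h3
    rw [card_supp, if_neg (not_lt.2 hqr)] at h3
    exact h3
  · have h3 := pow_factorization_le_of_comm hr hq hqr (supp a) (no_sun hA h) P hc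
    rw [card_supp] at h3
    exact (Nat.pow_le_pow_right hq.pos (factorization_orbit_le ha q)).trans h3
  · rw [ncard_orbit ha, ← card_supp]
    refine (index_dvd_of_fixer_le (fixer_le_stab ha)).trans
      (index_dvd_cpt (supp a) (no_sun hA h) ?_)
    intro x hx g hg
    exact hp g g.2 x hx hg
  · exact dvd_tame hr hy hA ha h (ht.elim id fun h1 => tame_of_card a h1)
  · have hcst : 0 < cst r y := Finset.prod_pos fun q hq => pow_pos (mem_filter.1 hq).2.pos _
    have hle : cst r y ≤ 4 * r * cst r y := Nat.le_mul_of_pos_left _ (by omega)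
    have hpos : 0 < 4 * r * cst r y := lt_of_lt_of_le hcst hle
    have hself : ∀ a ∈ A, a ∈ orbit Γ a := fun a haA =>
      ⟨1, Γ.one_mem, (act_one (hk a haA).1).symm⟩
    have himg : orbit Γ '' (A : Set ℕ) = ↑(A.image (orbit Γ)) := by
      rw [Finset.coe_image]
    rw [himg, Set.ncard_coe_finset, mul_comm]
    apply Finset.card_le_mul_card_image
    intro O hO
    obtain ⟨a, haA, rfl⟩ := Finset.mem_image.1 hO
    obtain ⟨ha, hak, hinv, ht⟩ := hk a haA
    have h1 : (orbit Γ a).ncard ≤ (4 * r * cst r y) ^ a.primeFactors.card := by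
      rcases ht with ht | ht
      · exact (Nat.le_of_dvd (pow_pos hcst _) (dvd_tame hr hy hA ha hinv ht)).trans
          (Nat.pow_le_pow_left hle _)
      · exact le_abel hr hy hA ha hinv ht
    have hfin : (orbit Γ a).Finite := A.finite_toSet.subset (by
      rintro b ⟨σ, hσ, rfl⟩
      exact hinv σ hσ)
    have h2 : (A.filter fun x => orbit Γ x = orbit Γ a).card ≤ (orbit Γ a).ncard := by
      rw [← Set.ncard_coe_finset]
      apply Set.ncard_le_ncard _ hfin
      intro b hb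
      obtain ⟨hbA, hbO⟩ := Finset.mem_filter.1 (Finset.mem_coe.1 hb)
      rw [← hbO]
      exact hself b hbA
    exact (h2.trans h1).trans (Nat.pow_le_pow_right hpos hak)

end Pool.Agent.Results.MP_47c51c_nt.GroupOrbits
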