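import Pool.Agent.Helper10.GcdSun.Few

/-!
Bounds for sets of positive integers without gcd-sunflowers.
-/

open Finset

namespace Pool.Agent.Results.MP_47c51c_nt.LogBound

open Pool.Agent.Helper10.GcdSun

/-- no `r` elements of `A` form a gcd-sunflower -/
def Free (r : ℕ) (A : Finset ℕ) : Prop :=
  ¬ ∃ S : Finset ℕ, S ⊆ A ∧ S.card = r ∧ GcdSunflower S

theorem result (r : ℕ) (hr : 1 ≤ r) :
    (∀ (m : ℕ) (w x : ℕ → ℝ), (∀ e, 0 ≤ w e) → (∀ n, ∑ e ∈ range n, w (e + 1) ≤ 1) →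
      (∀ t, 0 ≤ x t) → ∀ A : Finset ℕ, (∀ a ∈ A, 0 < a ∧ a.primeFactors.card ≤ m) → Free r A →
      ∑ a ∈ A, x a.primeFactors.card * ∏ p ∈ a.primeFactors, w (a.factorization p) ≤
        ∑ t ∈ range (m + 1), x t * (32 * (r : ℝ) * (Nat.log 2 t + 1)) ^ t) ∧
    (∀ (k m : ℕ) (A : Finset ℕ),
      (∀ a ∈ A, 0 < a ∧ a.primeFactorsList.length ≤ k ∧ a.primeFactors.card ≤ m) →
      Free r A → (A.card : ℝ) ≤ 2 ^ (k + 1) * (32 * (r : ℝ) * (Nat.log 2 m + 1)) ^ m) ∧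
    (∀ (D : ℝ) (k m : ℕ) (A : Finset ℕ), (m : ℝ) * Real.log (Nat.log 2 m + 1) ≤ D * k →
      (∀ a ∈ A, 0 < a ∧ a.primeFactorsList.length ≤ k ∧ a.primeFactors.card ≤ m) →
      Free r A → (A.card : ℝ) ≤ (128 * (r : ℝ) * Real.exp D) ^ k) ∧
    ∀ ε : ℝ, 0 < ε → ∃ N₀ : ℕ, ∀ N : ℕ, N₀ ≤ N → ∀ A : Finset ℕ, A ⊆ Icc 1 N → Free r A →
      (A.card : ℝ) ≤
        (N : ℝ) ^ ((1 + ε) * Real.log (Real.log (Real.log N)) / Real.log (Real.log N)) :=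
  ⟨fun _ w x hw hw1 hx _ hA hfree => lym' hr (fun a ha => (hA a ha).1) hfree
      (fun a ha => (hA a ha).2) w hw hw1 x hx,
    fun k m A hA hfree => bound_k' r k m hr A (fun a ha => (hA a ha).1) (fun a ha => (hA a ha).2.1)
      (fun a ha => (hA a ha).2.2) hfree,
    fun _ k m A hD hA hfree => bound_few' r k m hr hD A (fun a ha => (hA a ha).1)
      (fun a ha => (hA a ha).2.1) (fun a ha => (hA a ha).2.2) hfree,
    fun _ hε => bound_N r hε⟩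

end Pool.Agent.Results.MP_47c51c_nt.LogBound
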