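import Pool.Agent.Helper90.SharpEq.Main

/-!
The sunflower conjecture of Erdős and Rado, Q1, and the bound for subsets of `{1, ..., N}` are
equivalent, with exact constants.
-/

open Finset

namespace Pool.Agent.Results.MP_47c51c_nt.SharpEquivalence

open Pool.Agent.Helper10.GcdSun Pool.Agent.Helper90.SharpEq

theorem result (r : ℕ) (hr : 2 ≤ r) :
    (∀ c : ℝ, 1 ≤ c → List.TFAE [
      Sun r c, Gcd r (1 + c),
      ∀ ε : ℝ, 0 < ε → UpTo (PFree r) (Real.log c + ε),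
      ∀ ε : ℝ, 0 < ε → UpTo (GFree r) (Real.log (1 + c) + ε)]) ∧
    List.TFAE [
      ∃ c : ℝ, 0 < c ∧ Gcd r c, ∃ c : ℝ, 0 < c ∧ Sun r c,
      ∃ C : ℝ, UpTo (PFree r) C, ∃ C : ℝ, UpTo (GFree r) C] :=
  ⟨fun _ hc => tfae hr hc, tfae' hr⟩

end Pool.Agent.Results.MP_47c51c_nt.SharpEquivalence
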